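import Mathlib
import Pool.Agent.W438.RA.Defs

/-!
# RA-NUM, analytic part: lower bound for the integral over one box (MP_20f8ce_gt)
-/

set_option autoImplicit false

open MeasureTheory Set Filter Topology

namespace Pool.Agent.W932.RA.Num

open Pool.Agent.W438.RA

theorem F_anti {u v : ℝ} (h : u ≤ v) : F v ≤ F u := by
  unfold F
  rw [ENNReal.rpow_neg, ENNReal.rpow_neg]
  exact ENNReal.inv_le_inv.mpr (ENNReal.rpow_le_rpow (ENNReal.ofReal_le_ofReal h) (by norm_num))

theorem F_tangent {u c : ℝ} (hc : 0 < c) :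
    ENNReal.ofReal (c ^ (-(5 / 2) : ℝ) * (1 - 5 / 2 * (u / c - 1))) ≤ F u := by
  rcases le_or_gt u 0 with hu | hu
  · unfold F
    rw [ENNReal.ofReal_of_nonpos hu, ENNReal.zero_rpow_of_neg (by norm_num)]
    exact le_top
  · unfold F
    rw [ENNReal.ofReal_rpow_of_pos hu]
    apply ENNReal.ofReal_le_ofReal
    have hx : 0 < u / c := div_pos hu hc
    have h0 : u ^ (-(5 / 2) : ℝ) = c ^ (-(5 / 2) : ℝ) * (u / c) ^ (-(5 / 2) : ℝ) := by
      rw [← Real.mul_rpow hc.le hx.le]
      congr 1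
      field_simp
    rw [h0]
    apply mul_le_mul_of_nonneg_left _ (Real.rpow_nonneg hc.le _)
    rw [Real.rpow_def_of_pos hx]
    have h1 := Real.add_one_le_exp (Real.log (u / c) * (-(5 / 2)))
    have h2 := Real.log_le_sub_one_of_pos hx
    linarith

/-- one-dimensional weights -/
noncomputable def w1 (a b : ℝ) (e : Bool) (t : ℝ) : ℝ :=
  if e then (t - a) / (b - a) else (b - t) / (b - a)

/-- endpoints -/
def v1 (a b : ℝ) (e : Bool) : ℝ := if e then b else a

theorem w1_sum {a b : ℝ} (h : a < b) (t : ℝ) : ∑ e, w1 a b e t = 1 := by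
  have : b - a ≠ 0 := by linarith
  simp [w1]
  field_simp
  ring

theorem w1_sumv {a b : ℝ} (h : a < b) (t : ℝ) : ∑ e, w1 a b e t * v1 a b e = t := by
  have : b - a ≠ 0 := by linarith
  simp [w1, v1]
  field_simp
  ring

/-- multilinear weights -/
noncomputable def W (a b : Fin 5 → ℝ) (ε : Fin 5 → Bool) (y : Fin 5 → ℝ) : ℝ :=
  ∏ i, w1 (a i) (b i) (ε i) (y i)

theorem prod_sum_bool (f : Fin 5 → Bool → ℝ) : ∑ ε : Fin 5 → Bool, ∏ i, f i (ε i) = ∏ i, ∑ e, f i e := by
  have := (Finset.prod_univ_sum (fun _ : Fin 5 => (Finset.univ : Finset Bool)) f).symm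
  rw [Fintype.piFinset_univ] at this
  exact this

theorem W_sum {a b : Fin 5 → ℝ} (h : ∀ i, a i < b i) (y : Fin 5 → ℝ) : ∑ ε, W a b ε y = 1 := by
  unfold W
  rw [prod_sum_bool (fun i e => w1 (a i) (b i) e (y i))]
  simp only [w1_sum (h _), Finset.prod_const_one]

theorem W_sumv {a b : Fin 5 → ℝ} (h : ∀ i, a i < b i) (y : Fin 5 → ℝ) (j : Fin 5) :
    ∑ ε, W a b ε y * v1 (a j) (b j) (ε j) = y j := by
  have h1 : ∀ ε : Fin 5 → Bool, W a b ε y * v1 (a j) (b j) (ε j) =
      ∏ i, (w1 (a i) (b i) (ε i) (y i) * if i = j then v1 (a i) (b i) (ε i) else 1) := by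
    intro ε
    rw [Finset.prod_mul_distrib]
    congr 1
    simp
  simp only [h1]
  rw [prod_sum_bool (fun i e => w1 (a i) (b i) e (y i) * if i = j then v1 (a i) (b i) e else 1)]
  have h2 : ∀ i, (∑ e, w1 (a i) (b i) e (y i) * if i = j then v1 (a i) (b i) e else 1) =
      if i = j then y i else 1 := by
    intro i
    split_ifs with hij
    · exact w1_sumv (h i) _
    · simp only [mul_one]
      exact w1_sum (h i) _
  simp only [h2]
  simp

theorem MA_jensen {ι : Type*} (s : Finset ι) (w : ι → ℝ) (hw : ∀ i ∈ s, 0 ≤ w i)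
    (h1 : ∑ i ∈ s, w i = 1) (v : ι → Fin 5 → ℝ) (A : Finset (Fin 5)) :
    MA (fun j => ∑ i ∈ s, w i * v i j) A ≤ ∑ i ∈ s, w i * MA (v i) A := by
  have hS : ∑ j ∈ A, ∑ i ∈ s, w i * v i j = ∑ i ∈ s, w i * ∑ j ∈ A, v i j := by
    rw [Finset.sum_comm]
    apply Finset.sum_congr rfl
    intro i _
    rw [Finset.mul_sum]
  unfold MA
  split_ifs with hA
  · rw [hS, Finset.mul_sum]
    apply le_of_eq
    apply Finset.sum_congr rfl
    intro i _
    ring
  · rw [hS]
    have hc : (0 : ℝ) < (A.card : ℝ) - 1 := by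
      have : (1 : ℝ) < A.card := by exact_mod_cast (not_le.mp hA)
      linarith
    have h2 : (∑ i ∈ s, w i * ∑ j ∈ A, v i j) ^ 2 ≤ ∑ i ∈ s, w i * (∑ j ∈ A, v i j) ^ 2 := by
      have := (Even.convexOn_pow (𝕜 := ℝ) (n := 2) even_two).map_sum_le (t := s) (w := w)
        (p := fun i => ∑ j ∈ A, v i j) hw h1 (by simp)
      simpa [smul_eq_mul] using this
    calc (∑ i ∈ s, w i * ∑ j ∈ A, v i j) ^ 2 / ((A.card : ℝ) - 1)
        ≤ (∑ i ∈ s, w i * (∑ j ∈ A, v i j) ^ 2) / ((A.card : ℝ) - 1) :=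
          div_le_div_of_nonneg_right h2 hc.le
      _ = _ := by
          rw [Finset.sum_div]
          apply Finset.sum_congr rfl
          intro i _
          ring

theorem MA_le_M (y : Fin 5 → ℝ) (A : Finset (Fin 5)) : MA y A ≤ M y :=
  Finset.le_sup' (MA y) (Finset.mem_univ A)

theorem M_jensen {ι : Type*} (s : Finset ι) (w : ι → ℝ) (hw : ∀ i ∈ s, 0 ≤ w i)
    (h1 : ∑ i ∈ s, w i = 1) (v : ι → Fin 5 → ℝ) :
    M (fun j => ∑ i ∈ s, w i * v i j) ≤ ∑ i ∈ s, w i * M (v i) := by
  apply Finset.sup'_le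
  intro A _
  apply (MA_jensen s w hw h1 v A).trans
  apply Finset.sum_le_sum
  intro i hi
  exact mul_le_mul_of_nonneg_left (MA_le_M _ _) (hw i hi)

theorem max_le_W {a b : Fin 5 → ℝ} (h : ∀ i, a i < b i) (ρ : ℝ) (m : (Fin 5 → Bool) → ℝ)
    (hm : ∀ ε, max ρ (M (fun i => v1 (a i) (b i) (ε i))) ≤ m ε)
    {y : Fin 5 → ℝ} (hy : ∀ i, y i ∈ Ioc (a i) (b i)) :
    max ρ (M y) ≤ ∑ ε, W a b ε y * m ε := by
  have hW : ∀ ε ∈ (Finset.univ : Finset (Fin 5 → Bool)), 0 ≤ W a b ε y := by
    intro ε _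
    apply Finset.prod_nonneg
    intro i _
    have h1 := h i
    have h2 := hy i
    unfold w1
    split_ifs
    · exact div_nonneg (by linarith [h2.1]) (by linarith)
    · exact div_nonneg (by linarith [h2.2]) (by linarith)
  have hs := W_sum h y
  apply max_le
  · calc ρ = ∑ ε, W a b ε y * ρ := by rw [← Finset.sum_mul, hs, one_mul]
      _ ≤ _ := Finset.sum_le_sum (fun ε he =>
          mul_le_mul_of_nonneg_left ((le_max_left _ _).trans (hm ε)) (hW ε he))
  · have h3 := M_jensen Finset.univ (fun ε => W a b ε y) hW hs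
      (fun ε i => v1 (a i) (b i) (ε i))
    have h4 : (fun j => ∑ ε, W a b ε y * v1 (a j) (b j) (ε j)) = y := by
      funext j
      exact W_sumv h y j
    rw [h4] at h3
    apply h3.trans
    exact Finset.sum_le_sum (fun ε he =>
          mul_le_mul_of_nonneg_left ((le_max_right _ _).trans (hm ε)) (hW ε he))

/-- the box -/
def C (a b : Fin 5 → ℝ) : Set (Fin 5 → ℝ) := Set.pi univ (fun i => Ioc (a i) (b i))

theorem measurableSet_C (a b : Fin 5 → ℝ) : MeasurableSet (C a b) :=
  MeasurableSet.univ_pi (fun _ => measurableSet_Ioc)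

theorem integral_prod_C (a b : Fin 5 → ℝ) (f : Fin 5 → ℝ → ℝ) :
    ∫ y in C a b, ∏ i, f i (y i) = ∏ i, ∫ t in Ioc (a i) (b i), f i t := by
  unfold C
  rw [volume_pi, Measure.restrict_pi_pi]
  exact integral_fintype_prod_eq_prod f

theorem integrableOn_C (a b : Fin 5 → ℝ) {f : (Fin 5 → ℝ) → ℝ} (hf : Continuous f) :
    IntegrableOn f (C a b) := by
  have h1 : IsCompact (Set.pi univ (fun i => Icc (a i) (b i))) :=
    isCompact_univ_pi (fun _ => isCompact_Icc)
  have h2 : IntegrableOn f (Set.pi univ (fun i => Icc (a i) (b i))) :=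
    hf.locallyIntegrable.integrableOn_isCompact h1
  exact h2.mono_set (Set.pi_mono (fun i _ => Ioc_subset_Icc_self))

theorem integral_w1 {a b : ℝ} (h : a < b) (e : Bool) :
    ∫ t in Ioc a b, w1 a b e t = (b - a) / 2 := by
  have hne : b - a ≠ 0 := by linarith
  rw [← intervalIntegral.integral_of_le h.le]
  unfold w1
  cases e
  · simp only [Bool.false_eq_true, if_false]
    rw [intervalIntegral.integral_div, intervalIntegral.integral_sub (by simp) (by simp)]
    simp
    field_simp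
    ring
  · simp only [if_true]
    rw [intervalIntegral.integral_div, intervalIntegral.integral_sub (by simp) (by simp)]
    simp
    field_simp
    ring

theorem integral_W {a b : Fin 5 → ℝ} (h : ∀ i, a i < b i) (ε : Fin 5 → Bool) :
    ∫ y in C a b, W a b ε y = (∏ i, (b i - a i)) / 32 := by
  unfold W
  rw [integral_prod_C a b (fun i => w1 (a i) (b i) (ε i))]
  simp only [integral_w1 (h _)]
  rw [Finset.prod_div_distrib]
  norm_num

theorem integral_sq {a b : Fin 5 → ℝ} (h : ∀ i, a i < b i) (j : Fin 5) :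
    ∫ y in C a b, (y j) ^ 2 = (∏ i, (b i - a i)) * ((a j ^ 2 + a j * b j + b j ^ 2) / 3) := by
  have h1 : ∀ y : Fin 5 → ℝ, (y j) ^ 2 = ∏ i, (fun t : ℝ => if i = j then t ^ 2 else 1) (y i) := by
    intro y
    simp
  simp only [h1]
  rw [integral_prod_C a b (fun i t => if i = j then t ^ 2 else 1)]
  have h2 : ∀ i, ∫ t in Ioc (a i) (b i), (if i = j then t ^ 2 else (1 : ℝ)) =
      (b i - a i) * (if i = j then (a i ^ 2 + a i * b i + b i ^ 2) / 3 else 1) := by
    intro i
    rw [← intervalIntegral.integral_of_le (h i).le]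
    split_ifs with hij
    · rw [integral_pow]
      push_cast
      ring
    · simp
  simp only [h2]
  rw [Finset.prod_mul_distrib]
  congr 1
  simp

theorem integral_q {a b : Fin 5 → ℝ} (h : ∀ i, a i < b i) :
    ∫ y in C a b, q y = (∏ i, (b i - a i)) * ∑ j, ((a j ^ 2 + a j * b j + b j ^ 2) / 3) := by
  unfold q
  rw [integral_finsetSum _ (fun i _ => integrableOn_C a b (by fun_prop))]
  simp only [integral_sq h]
  rw [Finset.mul_sum]

theorem continuous_W (a b : Fin 5 → ℝ) (ε : Fin 5 → Bool) : Continuous (W a b ε) := by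
  unfold W
  apply continuous_finsetProd
  intro i _
  unfold w1
  cases ε i
  · simp only [Bool.false_eq_true, if_false]
    fun_prop
  · simp only [if_true]
    fun_prop

theorem ofReal_integral_le {μ : Measure (Fin 5 → ℝ)} {f : (Fin 5 → ℝ) → ℝ} (hf : Integrable f μ) :
    ENNReal.ofReal (∫ y, f y ∂μ) ≤ ∫⁻ y, ENNReal.ofReal (f y) ∂μ := by
  rw [integral_eq_lintegral_pos_part_sub_lintegral_neg_part hf]
  refine le_trans (ENNReal.ofReal_le_ofReal (sub_le_self _ ENNReal.toReal_nonneg)) ?_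
  exact ENNReal.ofReal_toReal_le

/-- the estimate on one box -/
theorem cell {a b : Fin 5 → ℝ} (h : ∀ i, a i < b i) (ρ : ℝ) (m : (Fin 5 → Bool) → ℝ)
    (hm : ∀ ε, max ρ (M (fun i => v1 (a i) (b i) (ε i))) ≤ m ε) (c : ℝ) (hc : 0 < c)
    (hcm : (∑ ε, m ε) / 32 - ∑ j, ((a j ^ 2 + a j * b j + b j ^ 2) / 3) ≤ c) :
    ENNReal.ofReal ((∏ i, (b i - a i)) * c ^ (-(5 / 2) : ℝ)) ≤
      ∫⁻ y in C a b, F (max ρ (M y) - q y) := by
  set u : (Fin 5 → ℝ) → ℝ := fun y => (∑ ε, W a b ε y * m ε) - q y with hu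
  have hcont : Continuous u := by
    rw [hu]
    apply Continuous.sub
    · exact continuous_finsetSum _ (fun ε _ => (continuous_W a b ε).mul continuous_const)
    · unfold q
      fun_prop
  have hint : ∫ y in C a b, u y = (∏ i, (b i - a i)) *
      ((∑ ε, m ε) / 32 - ∑ j, ((a j ^ 2 + a j * b j + b j ^ 2) / 3)) := by
    rw [hu]
    rw [integral_sub (integrableOn_C a b (by
      exact continuous_finsetSum _ (fun ε _ => (continuous_W a b ε).mul continuous_const)))
      (integrableOn_C a b (by unfold q; fun_prop))]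
    have e0 : ∫ y in C a b, ∑ ε, W a b ε y * m ε = ∑ ε, ∫ y in C a b, W a b ε y * m ε :=
      integral_finsetSum _ (fun ε _ => integrableOn_C a b
        ((continuous_W a b ε).mul continuous_const))
    rw [integral_q h, e0]
    simp only [integral_mul_const, integral_W h]
    rw [← Finset.mul_sum]
    ring
  have hV : ∫ y in C a b, (1 : ℝ) = ∏ i, (b i - a i) := by
    have := integral_prod_C a b (fun _ _ => 1)
    simp only [Finset.prod_const_one] at this
    rw [this]
    apply Finset.prod_congr rfl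
    intro i _
    rw [← intervalIntegral.integral_of_le (h i).le]
    simp
  have hVpos : 0 ≤ ∏ i, (b i - a i) := Finset.prod_nonneg (fun i _ => by linarith [h i])
  set κ : ℝ := c ^ (-(5 / 2) : ℝ) with hκ
  have hκpos : 0 ≤ κ := Real.rpow_nonneg hc.le _
  have hlow : ∀ y ∈ C a b, ENNReal.ofReal (κ * (1 - 5 / 2 * (u y / c - 1))) ≤
      F (max ρ (M y) - q y) := by
    intro y hy
    have hy' : ∀ i, y i ∈ Ioc (a i) (b i) := fun i => hy i (mem_univ i)
    refine (F_tangent hc).trans (F_anti ?_)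
    have := max_le_W h ρ m hm hy'
    simp only [hu]
    linarith
  calc ENNReal.ofReal ((∏ i, (b i - a i)) * κ)
      ≤ ENNReal.ofReal (∫ y in C a b, κ * (1 - 5 / 2 * (u y / c - 1))) := by
        apply ENNReal.ofReal_le_ofReal
        have e1 : ∀ y, κ * (1 - 5 / 2 * (u y / c - 1)) = (7 / 2 * κ) * 1 - (κ * (5 / 2) / c) * u y := by
          intro y
          field_simp
          ring
        simp only [e1]
        rw [integral_sub ((integrableOn_C a b continuous_const).const_mul _)
          ((integrableOn_C a b hcont).const_mul _)]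
        rw [integral_const_mul, integral_const_mul, hV, hint]
        have e2 : (κ * (5 / 2) / c) * ((∏ i, (b i - a i)) *
            ((∑ ε, m ε) / 32 - ∑ j, ((a j ^ 2 + a j * b j + b j ^ 2) / 3))) ≤
            (κ * (5 / 2) / c) * ((∏ i, (b i - a i)) * c) := by
          apply mul_le_mul_of_nonneg_left
          · exact mul_le_mul_of_nonneg_left hcm hVpos
          · positivity
        have e3 : (κ * (5 / 2) / c) * ((∏ i, (b i - a i)) * c) = κ * (5 / 2) * ∏ i, (b i - a i) := by
          field_simp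
        linarith
    _ ≤ ∫⁻ y in C a b, ENNReal.ofReal (κ * (1 - 5 / 2 * (u y / c - 1))) := by
        apply ofReal_integral_le
        apply integrableOn_C
        fun_prop
    _ ≤ _ := setLIntegral_mono' (measurableSet_C a b) hlow

end Pool.Agent.W932.RA.Num
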