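import Mathlib
import Pool.Agent.W438.RA.Defs
import Pool.Agent.W932.RA.NumA

/-!
# RA-NUM, combinatorial part: grid, symmetry, orbits (MP_20f8ce_gt)
-/

set_option autoImplicit false

open MeasureTheory Set Filter Topology

namespace Pool.Agent.W932.RA.Num

open Pool.Agent.W438.RA

/-- the grid in units of `1/48` -/
def gN : ℕ → ℕ
  | 0 => 0
  | 1 => 6
  | 2 => 10
  | 3 => 13
  | 4 => 16
  | 5 => 18
  | 6 => 20
  | 7 => 22
  | _ => 24

/-- the grid -/
noncomputable def gr (k : ℕ) : ℝ := (gN k : ℝ) / 48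

theorem gN_lt : ∀ k : Fin 8, gN k < gN (k + 1) := by decide

theorem gN_le : ∀ k k' : Fin 8, k < k' → gN (k + 1) ≤ gN k' := by decide

theorem gN_24 : ∀ k : Fin 8, gN (k + 1) ≤ 24 := by decide

theorem gr_lt (k : Fin 8) : gr k < gr (k + 1) := by
  unfold gr
  have : (gN k : ℝ) < (gN (k + 1) : ℝ) := by exact_mod_cast gN_lt k
  linarith

/-- the cell -/
noncomputable def cl (k : Fin 5 → Fin 8) : Set (Fin 5 → ℝ) :=
  C (fun i => gr (k i)) (fun i => gr ((k i : ℕ) + 1))

theorem mem_cl {k : Fin 5 → Fin 8} {y : Fin 5 → ℝ} :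
    y ∈ cl k ↔ ∀ i, y i ∈ Ioc (gr (k i)) (gr ((k i : ℕ) + 1)) := by
  unfold cl C
  simp

theorem cl_disjoint {k k' : Fin 5 → Fin 8} (h : k ≠ k') : Disjoint (cl k) (cl k') := by
  obtain ⟨i, hi⟩ := Function.ne_iff.mp h
  rw [Set.disjoint_left]
  intro y hy hy'
  rw [mem_cl] at hy hy'
  have h1 := hy i
  have h2 := hy' i
  have key : ∀ p p' : Fin 8, p < p' → y i ∈ Ioc (gr p) (gr ((p : ℕ) + 1)) →
      y i ∈ Ioc (gr p') (gr ((p' : ℕ) + 1)) → False := by
    intro p p' hp hy1 hy2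
    have h3 : (gN (p + 1) : ℝ) ≤ gN p' := by exact_mod_cast gN_le p p' hp
    have h4 := hy1.2
    have h5 := hy2.1
    unfold gr at h4 h5
    linarith
  rcases lt_or_gt_of_ne hi with h3 | h3
  · exact key _ _ h3 h1 h2
  · exact key _ _ h3 h2 h1

theorem cl_subset (k : Fin 5 → Fin 8) : cl k ⊆ Icc (0 : Fin 5 → ℝ) (fun _ => 1 / 2) := by
  intro y hy
  rw [mem_cl] at hy
  refine ⟨fun i => ?_, fun i => ?_⟩
  · have h1 := (hy i).1
    have h2 : (0 : ℝ) ≤ gr (k i) := by unfold gr; positivity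
    simp only [Pi.zero_apply]
    linarith
  · have h1 := (hy i).2
    have h2 : (gN (k i + 1) : ℝ) ≤ 24 := by exact_mod_cast gN_24 (k i)
    unfold gr at h1
    simp only
    linarith

theorem measurableSet_cl (k : Fin 5 → Fin 8) : MeasurableSet (cl k) := measurableSet_C _ _

/-- the integral over a cell -/
noncomputable def I (ρ : ℝ) (k : Fin 5 → Fin 8) : ENNReal :=
  ∫⁻ y in cl k, F (max ρ (M y) - q y)

theorem sum_I_le (ρ : ℝ) : ∑ k, I ρ k ≤ K ρ := by
  unfold I K
  rw [← tsum_fintype (L := .unconditional _), ← lintegral_iUnion measurableSet_cl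
    (fun k k' h => cl_disjoint h)]
  apply lintegral_mono_set
  exact iUnion_subset cl_subset

theorem q_perm (σ : Equiv.Perm (Fin 5)) (y : Fin 5 → ℝ) : q (y ∘ σ) = q y := by
  unfold q
  exact Equiv.sum_comp σ (fun i => y i ^ 2)

theorem MA_perm (σ : Equiv.Perm (Fin 5)) (y : Fin 5 → ℝ) (A : Finset (Fin 5)) :
    MA (y ∘ σ) A = MA y (A.map σ.toEmbedding) := by
  unfold MA
  simp only [Finset.card_map, Finset.sum_map, Equiv.coe_toEmbedding, Function.comp]

theorem M_perm_le (σ : Equiv.Perm (Fin 5)) (y : Fin 5 → ℝ) : M (y ∘ σ) ≤ M y := by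
  apply Finset.sup'_le
  intro A _
  rw [MA_perm]
  exact MA_le_M _ _

theorem M_perm (σ : Equiv.Perm (Fin 5)) (y : Fin 5 → ℝ) : M (y ∘ σ) = M y := by
  apply le_antisymm (M_perm_le σ y)
  have := M_perm_le σ⁻¹ (y ∘ σ)
  have h : (y ∘ σ) ∘ (σ⁻¹ : Equiv.Perm (Fin 5)) = y := by
    funext i
    simp
  rwa [h] at this

theorem I_perm (ρ : ℝ) (k : Fin 5 → Fin 8) (σ : Equiv.Perm (Fin 5)) : I ρ (k ∘ σ) = I ρ k := by
  unfold I
  have hmp := volume_measurePreserving_piCongrLeft (fun _ : Fin 5 => ℝ) σ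
  rw [← hmp.setLIntegral_comp_preimage_emb (MeasurableEquiv.measurableEmbedding _)
    (fun y => F (max ρ (M y) - q y)) (cl k)]
  have he : ∀ y : Fin 5 → ℝ, (MeasurableEquiv.piCongrLeft (fun _ : Fin 5 => ℝ) σ) y = y ∘ σ.symm := by
    intro y
    funext i
    rw [MeasurableEquiv.coe_piCongrLeft]
    simp [Equiv.piCongrLeft, Equiv.piCongrLeft']
  simp only [he]
  have hpre : (MeasurableEquiv.piCongrLeft (fun _ : Fin 5 => ℝ) σ) ⁻¹' cl k = cl (k ∘ σ) := by
    ext y
    rw [mem_preimage, he, mem_cl, mem_cl]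
    constructor
    · intro h i
      have := h (σ i)
      simpa using this
    · intro h i
      have := h (σ.symm i)
      simpa using this
  rw [hpre]
  congr 1
  funext y
  rw [M_perm, q_perm]

/-- tie pattern -/
def pat (e0 e1 e2 e3 : Bool) : Fin 5 → ℕ :=
  ![0, (cond e0 0 1), (cond e0 0 1) + (cond e1 0 1), (cond e0 0 1) + (cond e1 0 1) + (cond e2 0 1),
    (cond e0 0 1) + (cond e1 0 1) + (cond e2 0 1) + (cond e3 0 1)]

/-- orbit size by tie pattern -/
def mB : Bool → Bool → Bool → Bool → ℕ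
  | false, false, false, false => 120
  | true, false, false, false => 60
  | false, true, false, false => 60
  | false, false, true, false => 60
  | false, false, false, true => 60
  | true, true, false, false => 20
  | false, true, true, false => 20
  | false, false, true, true => 20
  | true, false, true, false => 30
  | true, false, false, true => 30
  | false, true, false, true => 30
  | true, true, true, false => 5
  | false, true, true, true => 5
  | true, true, false, true => 10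
  | true, false, true, true => 10
  | true, true, true, true => 1

theorem stab_card : ∀ e0 e1 e2 e3 : Bool,
    (Finset.univ.filter (fun σ : Equiv.Perm (Fin 5) =>
      ∀ i, pat e0 e1 e2 e3 (σ i) = pat e0 e1 e2 e3 i)).card * mB e0 e1 e2 e3 = 120 := by
  decide +kernel

/-- multiplicity of a tuple -/
def mlt (k : Fin 5 → Fin 8) : ℕ :=
  mB (Nat.beq (k 0) (k 1)) (Nat.beq (k 1) (k 2)) (Nat.beq (k 2) (k 3)) (Nat.beq (k 3) (k 4))

theorem cond_beq (a b : ℕ) : (cond (Nat.beq a b) 0 1 : ℕ) ≤ 1 ∧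
    ((cond (Nat.beq a b) 0 1 : ℕ) = 0 ↔ a = b) := by
  by_cases h : a = b
  · subst h
    simp
  · have : Nat.beq a b = false := by
      rw [Bool.eq_false_iff]
      intro h2
      exact h (Nat.eq_of_beq_eq_true h2)
    simp [this, h]

theorem pat_iff {k : Fin 5 → Fin 8} (hk : Monotone k) (i j : Fin 5) :
    pat (Nat.beq (k 0) (k 1)) (Nat.beq (k 1) (k 2)) (Nat.beq (k 2) (k 3)) (Nat.beq (k 3) (k 4)) i =
    pat (Nat.beq (k 0) (k 1)) (Nat.beq (k 1) (k 2)) (Nat.beq (k 2) (k 3)) (Nat.beq (k 3) (k 4)) j ↔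
    k i = k j := by
  have h01 : (k 0 : ℕ) ≤ k 1 := hk (by decide)
  have h12 : (k 1 : ℕ) ≤ k 2 := hk (by decide)
  have h23 : (k 2 : ℕ) ≤ k 3 := hk (by decide)
  have h34 : (k 3 : ℕ) ≤ k 4 := hk (by decide)
  rw [Fin.ext_iff]
  unfold pat
  obtain ⟨p0, q0⟩ := cond_beq (k 0) (k 1)
  obtain ⟨p1, q1⟩ := cond_beq (k 1) (k 2)
  obtain ⟨p2, q2⟩ := cond_beq (k 2) (k 3)
  obtain ⟨p3, q3⟩ := cond_beq (k 3) (k 4)
  generalize (cond (Nat.beq (k 0) (k 1)) 0 1 : ℕ) = c0 at *
  generalize (cond (Nat.beq (k 1) (k 2)) 0 1 : ℕ) = c1 at *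
  generalize (cond (Nat.beq (k 2) (k 3)) 0 1 : ℕ) = c2 at *
  generalize (cond (Nat.beq (k 3) (k 4)) 0 1 : ℕ) = c3 at *
  fin_cases i <;> fin_cases j <;> simp <;> omega

theorem stab_card' {k : Fin 5 → Fin 8} (hk : Monotone k) :
    (Finset.univ.filter (fun σ : Equiv.Perm (Fin 5) => k ∘ σ = k)).card * mlt k = 120 := by
  unfold mlt
  rw [← stab_card (Nat.beq (k 0) (k 1)) (Nat.beq (k 1) (k 2)) (Nat.beq (k 2) (k 3))
    (Nat.beq (k 3) (k 4))]
  congr 2
  ext σ
  simp only [Finset.mem_filter, Finset.mem_univ, true_and]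
  rw [funext_iff]
  simp only [pat_iff hk, Function.comp]

theorem orbit_card {k : Fin 5 → Fin 8} (hk : Monotone k) :
    mlt k ≤ (Finset.univ.image (fun σ : Equiv.Perm (Fin 5) => k ∘ σ)).card := by
  set s := (Finset.univ.filter (fun σ : Equiv.Perm (Fin 5) => k ∘ σ = k)).card with hs
  have h1 := Finset.card_le_mul_card_image (f := fun σ : Equiv.Perm (Fin 5) => k ∘ σ)
    (Finset.univ : Finset (Equiv.Perm (Fin 5))) s (by
      intro v hv
      obtain ⟨τ, _, rfl⟩ := Finset.mem_image.mp hv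
      rw [hs]
      apply Finset.card_le_card_of_injOn (fun σ => τ⁻¹ * σ |>.symm |>.symm |> fun _ => σ * τ⁻¹)
      · intro σ hσ
        simp only [Finset.coe_filter, Finset.mem_univ, true_and, Set.mem_ofPred_eq] at hσ ⊢
        funext i
        have := congrFun hσ (τ⁻¹ i)
        simpa using this
      · intro σ _ σ' _ h
        simpa using h)
  have h2 : (Finset.univ : Finset (Equiv.Perm (Fin 5))).card = 120 := by
    rw [Finset.card_univ, Fintype.card_perm, Fintype.card_fin]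
    rfl
  rw [h2, ← stab_card' hk, ← hs] at h1
  have h3 : 0 < s := by
    have := stab_card' hk
    rw [← hs] at this
    rcases Nat.eq_zero_or_pos s with h | h
    · rw [h] at this
      omega
    · exact h
  exact Nat.le_of_mul_le_mul_left h1 h3

theorem fiber_card {k : Fin 5 → Fin 8} (hk : Monotone k) :
    mlt k ≤ (Finset.univ.filter (fun k' : Fin 5 → Fin 8 => k' ∘ Tuple.sort k' = k)).card := by
  apply (orbit_card hk).trans
  apply Finset.card_le_card
  intro v hv
  obtain ⟨σ, _, rfl⟩ := Finset.mem_image.mp hv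
  simp only [Finset.mem_filter, Finset.mem_univ, true_and]
  have h1 := Tuple.monotone_sort (k ∘ σ)
  have h2 : Monotone ((k ∘ σ) ∘ (σ⁻¹ : Equiv.Perm (Fin 5))) := by
    have : (k ∘ σ) ∘ (σ⁻¹ : Equiv.Perm (Fin 5)) = k := by
      funext i
      simp
    rw [this]
    exact hk
  rw [Tuple.unique_monotone h1 h2]
  funext i
  simp

theorem sum_ge (J : (Fin 5 → Fin 8) → ENNReal)
    (hJ : ∀ k (σ : Equiv.Perm (Fin 5)), J (k ∘ σ) = J k) (c : (Fin 5 → Fin 8) → ENNReal)
    (hc : ∀ k, c k ≤ (mlt k : ENNReal) * J k) (hc0 : ∀ k, ¬ Monotone k → c k = 0) :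
    ∑ k, c k ≤ ∑ k, J k := by
  have h1 : ∑ k, J k = ∑ k, ∑ k' ∈ Finset.univ.filter
      (fun k' : Fin 5 → Fin 8 => k' ∘ Tuple.sort k' = k), J k' :=
    (Finset.sum_fiberwise_of_maps_to (fun _ _ => Finset.mem_univ _) _).symm
  rw [h1]
  apply Finset.sum_le_sum
  intro k _
  by_cases hk : Monotone k
  · have h2 : ∑ k' ∈ Finset.univ.filter
      (fun k' : Fin 5 → Fin 8 => k' ∘ Tuple.sort k' = k), J k' =
      ((Finset.univ.filter (fun k' : Fin 5 → Fin 8 => k' ∘ Tuple.sort k' = k)).card : ENNReal) *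
        J k := by
      rw [← nsmul_eq_mul, ← Finset.sum_const]
      apply Finset.sum_congr rfl
      intro k' hk'
      simp only [Finset.mem_filter, Finset.mem_univ, true_and] at hk'
      rw [← hk', hJ]
    rw [h2]
    refine (hc k).trans ?_
    gcongr
    exact fiber_card hk
  · rw [hc0 k hk]
    exact bot_le

end Pool.Agent.W932.RA.Num
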