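import Mathlib
import Pool.Agent.W438.RA.Defs
import Pool.Agent.W932.RA.NumA
import Pool.Agent.W932.RA.NumB

/-!
# RA-NUM, numerical part: kernel computation (MP_20f8ce_gt)
-/

set_option autoImplicit false

open MeasureTheory Set Filter Topology

namespace Pool.Agent.W932.RA.Num

open Pool.Agent.W438.RA

/-- forces evaluation of the argument -/
def fr (n : ℕ) (f : ℕ → ℕ) : ℕ := Nat.rec (f 0) (fun m _ => f (m + 1)) n

theorem fr_eq (n : ℕ) (f : ℕ → ℕ) : fr n f = f n := by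
  cases n <;> rfl

def mx (a b : ℕ) : ℕ := cond (Nat.ble a b) b a

def mn (a b : ℕ) : ℕ := cond (Nat.ble a b) a b

theorem mx_eq (a b : ℕ) : mx a b = max a b := by
  unfold mx
  by_cases h : a ≤ b
  · rw [Nat.ble_eq_true_of_le h, max_eq_right h]
    rfl
  · have : Nat.ble a b = false := by
      rw [Bool.eq_false_iff]
      intro h2
      exact h (Nat.le_of_ble_eq_true h2)
    rw [this, max_eq_left (by omega)]
    rfl

theorem mn_eq (a b : ℕ) : mn a b = min a b := by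
  unfold mn
  by_cases h : a ≤ b
  · rw [Nat.ble_eq_true_of_le h, min_eq_left h]
    rfl
  · have : Nat.ble a b = false := by
      rw [Bool.eq_false_iff]
      intro h2
      exact h (Nat.le_of_ble_eq_true h2)
    rw [this, min_eq_right (by omega)]
    rfl

/-- upper bound for `M` in units of `1/27648`, coordinates in units of `1/48` -/
def mv (x0 x1 x2 x3 x4 : ℕ) : ℕ :=
  fr (x0 + x1 + x2 + x3 + x4) fun S =>
  fr (mn x0 (mn x1 (mn x2 (mn x3 x4)))) fun m1 =>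
  fr (mn (x0 + x1) (mn (x0 + x2) (mn (x0 + x3) (mn (x0 + x4) (mn (x1 + x2) (mn (x1 + x3)
    (mn (x1 + x4) (mn (x2 + x3) (mn (x2 + x4) (x3 + x4)))))))))) fun m2 =>
  fr (mx x0 (mx x1 (mx x2 (mx x3 x4)))) fun m0 =>
  mx (1152 * m0) (mx (3 * (S * S)) (mx (4 * ((S - m1) * (S - m1))) (6 * ((S - m2) * (S - m2)))))

/-- sum over the two endpoints -/
def two (k : ℕ) (f : ℕ → ℕ) : ℕ := fr (gN k) f + fr (gN (k + 1)) f

/-- sum over the 32 vertices -/
def cs (R a b c d e : ℕ) : ℕ :=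
  two a fun x0 => two b fun x1 => two c fun x2 => two d fun x3 => two e fun x4 =>
    mx R (mv x0 x1 x2 x3 x4)

def qd (k : ℕ) : ℕ := gN k * gN k + gN k * gN (k + 1) + gN (k + 1) * gN (k + 1)

def bis (X P n : ℕ) : ℕ → ℕ :=
  Nat.rec (fun L => L) (fun n ih L => cond (Nat.ble ((L + 2 ^ n) * (L + 2 ^ n) * P) X)
    (ih (L + 2 ^ n)) (ih L)) n

def XX : ℕ := 10 ^ 12 * 884736 ^ 5

def Lv (N : ℕ) : ℕ := cond (Nat.beq N 0) 0 (fr (N ^ 5) fun P => fr (10 ^ 12 * 884736 ^ 5) fun X =>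
  bis X P 26 0)

def LL (R a b c d e : ℕ) : ℕ := fr (cs R a b c d e - 128 * (qd a + qd b + qd c + qd d + qd e)) Lv

def wd (k : ℕ) : ℕ := gN (k + 1) - gN k

def tm (R1 R2 a b c d e : ℕ) : ℕ :=
  mB (Nat.beq a b) (Nat.beq b c) (Nat.beq c d) (Nat.beq d e) *
    (wd a * wd b * wd c * wd d * wd e * (LL R1 a b c d e + LL R2 a b c d e))

def s8 (f : ℕ → ℕ) : ℕ := f 0 + f 1 + f 2 + f 3 + f 4 + f 5 + f 6 + f 7

def TT (R1 R2 a : ℕ) : ℕ :=
  s8 fun b => cond (Nat.ble a b) (s8 fun c => cond (Nat.ble b c) (s8 fun d => cond (Nat.ble c d)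
    (s8 fun e => cond (Nat.ble d e) (tm R1 R2 a b c d e) 0) 0) 0) 0

theorem check1 : Nat.ble (90437 * 48 ^ 5 * 10 ^ 6)
    (16 * 10 ^ 4 * s8 (TT 27648 3456)) = true := by decide +kernel

theorem check2 : Nat.ble (90437 * 48 ^ 5 * 10 ^ 6)
    (16 * 10 ^ 4 * s8 (TT 24192 13824)) = true := by decide +kernel

theorem mv_eq (x0 x1 x2 x3 x4 : ℕ) : ∃ S m0 m1 m2 : ℕ, S = x0 + x1 + x2 + x3 + x4 ∧
    m0 = max x0 (max x1 (max x2 (max x3 x4))) ∧ m1 = min x0 (min x1 (min x2 (min x3 x4))) ∧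
    m2 = min (x0 + x1) (min (x0 + x2) (min (x0 + x3) (min (x0 + x4) (min (x1 + x2) (min (x1 + x3)
      (min (x1 + x4) (min (x2 + x3) (min (x2 + x4) (x3 + x4))))))))) ∧
    mv x0 x1 x2 x3 x4 = max (1152 * m0) (max (3 * (S * S)) (max (4 * ((S - m1) * (S - m1)))
      (6 * ((S - m2) * (S - m2))))) := by
  refine ⟨_, _, _, _, rfl, rfl, rfl, rfl, ?_⟩
  unfold mv
  simp only [fr_eq, mx_eq, mn_eq]

theorem mv_bound (x : Fin 5 → ℕ) (hx : ∀ i, x i ≤ 24) (A : Finset (Fin 5)) :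
    (A.card ≤ 1 → 1152 * ∑ i ∈ A, x i ≤ mv (x 0) (x 1) (x 2) (x 3) (x 4)) ∧
    (A.card = 2 → 12 * (∑ i ∈ A, x i) ^ 2 ≤ mv (x 0) (x 1) (x 2) (x 3) (x 4)) ∧
    (A.card = 3 → 6 * (∑ i ∈ A, x i) ^ 2 ≤ mv (x 0) (x 1) (x 2) (x 3) (x 4)) ∧
    (A.card = 4 → 4 * (∑ i ∈ A, x i) ^ 2 ≤ mv (x 0) (x 1) (x 2) (x 3) (x 4)) ∧
    (A.card = 5 → 3 * (∑ i ∈ A, x i) ^ 2 ≤ mv (x 0) (x 1) (x 2) (x 3) (x 4)) := by
  obtain ⟨S, m0, m1, m2, hS, h0, h1, h2, he⟩ := mv_eq (x 0) (x 1) (x 2) (x 3) (x 4)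
  rw [he]
  have a0 : x 0 ≤ m0 := by
    rw [h0]
    simp only [le_max_iff, le_refl, true_or, or_true]
  have b0 : m1 ≤ x 0 := by
    rw [h1]
    simp only [min_le_iff, le_refl, true_or, or_true]
  have a1 : x 1 ≤ m0 := by
    rw [h0]
    simp only [le_max_iff, le_refl, true_or, or_true]
  have b1 : m1 ≤ x 1 := by
    rw [h1]
    simp only [min_le_iff, le_refl, true_or, or_true]
  have a2 : x 2 ≤ m0 := by
    rw [h0]
    simp only [le_max_iff, le_refl, true_or, or_true]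
  have b2 : m1 ≤ x 2 := by
    rw [h1]
    simp only [min_le_iff, le_refl, true_or, or_true]
  have a3 : x 3 ≤ m0 := by
    rw [h0]
    simp only [le_max_iff, le_refl, true_or, or_true]
  have b3 : m1 ≤ x 3 := by
    rw [h1]
    simp only [min_le_iff, le_refl, true_or, or_true]
  have a4 : x 4 ≤ m0 := by
    rw [h0]
    simp only [le_max_iff, le_refl, true_or, or_true]
  have b4 : m1 ≤ x 4 := by
    rw [h1]
    simp only [min_le_iff, le_refl, true_or, or_true]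
  have p01 : m2 ≤ x 0 + x 1 := by
    rw [h2]
    simp only [min_le_iff, le_refl, true_or, or_true]
  have p02 : m2 ≤ x 0 + x 2 := by
    rw [h2]
    simp only [min_le_iff, le_refl, true_or, or_true]
  have p03 : m2 ≤ x 0 + x 3 := by
    rw [h2]
    simp only [min_le_iff, le_refl, true_or, or_true]
  have p04 : m2 ≤ x 0 + x 4 := by
    rw [h2]
    simp only [min_le_iff, le_refl, true_or, or_true]
  have p12 : m2 ≤ x 1 + x 2 := by
    rw [h2]
    simp only [min_le_iff, le_refl, true_or, or_true]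
  have p13 : m2 ≤ x 1 + x 3 := by
    rw [h2]
    simp only [min_le_iff, le_refl, true_or, or_true]
  have p14 : m2 ≤ x 1 + x 4 := by
    rw [h2]
    simp only [min_le_iff, le_refl, true_or, or_true]
  have p23 : m2 ≤ x 2 + x 3 := by
    rw [h2]
    simp only [min_le_iff, le_refl, true_or, or_true]
  have p24 : m2 ≤ x 2 + x 4 := by
    rw [h2]
    simp only [min_le_iff, le_refl, true_or, or_true]
  have p34 : m2 ≤ x 3 + x 4 := by
    rw [h2]
    simp only [min_le_iff, le_refl, true_or, or_true]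
  have hm24 : m0 ≤ 24 := by
    rw [h0]
    simp only [max_le_iff]
    exact ⟨hx 0, hx 1, hx 2, hx 3, hx 4⟩
  clear he h0 h1 h2
  have hm0 : ∀ i, x i ≤ m0 := by
    intro i
    fin_cases i
    · exact a0
    · exact a1
    · exact a2
    · exact a3
    · exact a4
  have hm1 : ∀ i, m1 ≤ x i := by
    intro i
    fin_cases i
    · exact b0
    · exact b1
    · exact b2
    · exact b3
    · exact b4
  have hm2' : ∀ i j : Fin 5, i < j → m2 ≤ x i + x j := by
    intro i j hij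
    fin_cases i <;> fin_cases j <;>
      first
      | exact absurd hij (by decide)
      | exact p01
      | exact p02
      | exact p03
      | exact p04
      | exact p12
      | exact p13
      | exact p14
      | exact p23
      | exact p24
      | exact p34
  have hm2 : ∀ i j : Fin 5, i ≠ j → m2 ≤ x i + x j := by
    intro i j hij
    rcases lt_or_gt_of_ne hij with h | h
    · exact hm2' i j h
    · rw [add_comm]
      exact hm2' j i h
  have hSS : ∑ i, x i = S := by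
    rw [Fin.sum_univ_five, hS]
  have hcompl : ∑ i ∈ A, x i + ∑ i ∈ Aᶜ, x i = S := by
    rw [Finset.sum_add_sum_compl, hSS]
  have hcc : A.card + Aᶜ.card = 5 := by
    rw [Finset.card_add_card_compl]
    rfl
  refine ⟨fun hA => ?_, fun hA => ?_, fun hA => ?_, fun hA => ?_, fun hA => ?_⟩
  · rcases Nat.lt_or_ge A.card 1 with h3 | h3
    · have : A = ∅ := Finset.card_eq_zero.mp (by omega)
      rw [this]
      simp
    · obtain ⟨i, rfl⟩ := Finset.card_eq_one.mp (le_antisymm hA h3)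
      rw [Finset.sum_singleton]
      exact le_max_of_le_left (Nat.mul_le_mul_left _ (hm0 i))
  · obtain ⟨i, j, hij, rfl⟩ := Finset.card_eq_two.mp hA
    rw [Finset.sum_pair hij]
    apply le_max_of_le_left
    have := hm0 i
    have := hm0 j
    have h3 : (x i + x j) ^ 2 ≤ (2 * m0) ^ 2 := Nat.pow_le_pow_left (by omega) 2
    nlinarith
  · obtain ⟨i, j, hij, hc⟩ := Finset.card_eq_two.mp (show Aᶜ.card = 2 by omega)
    rw [hc, Finset.sum_pair hij] at hcompl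
    have := hm2 i j hij
    apply le_max_of_le_right
    apply le_max_of_le_right
    apply le_max_of_le_right
    rw [← pow_two]
    exact Nat.mul_le_mul_left _ (Nat.pow_le_pow_left (by omega) 2)
  · obtain ⟨i, hc⟩ := Finset.card_eq_one.mp (show Aᶜ.card = 1 by omega)
    rw [hc, Finset.sum_singleton] at hcompl
    have := hm1 i
    apply le_max_of_le_right
    apply le_max_of_le_right
    apply le_max_of_le_left
    rw [← pow_two]
    exact Nat.mul_le_mul_left _ (Nat.pow_le_pow_left (by omega) 2)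
  · apply le_max_of_le_right
    apply le_max_of_le_left
    rw [← pow_two]
    exact Nat.mul_le_mul_left _ (Nat.pow_le_pow_left (by omega) 2)

theorem M_le (x : Fin 5 → ℕ) (hx : ∀ i, x i ≤ 24) :
    M (fun i => (x i : ℝ) / 48) ≤ (mv (x 0) (x 1) (x 2) (x 3) (x 4) : ℝ) / 27648 := by
  apply Finset.sup'_le
  intro A _
  obtain ⟨b1, b2, b3, b4, b5⟩ := mv_bound x hx A
  have hcard : A.card ≤ 5 := by
    have := Finset.card_le_univ A
    simpa using this
  have hs : ∑ i ∈ A, (x i : ℝ) / 48 = ((∑ i ∈ A, x i : ℕ) : ℝ) / 48 := by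
    rw [← Finset.sum_div]
    push_cast
    rfl
  unfold MA
  rw [hs]
  generalize (∑ i ∈ A, x i) = s at *
  generalize mv (x 0) (x 1) (x 2) (x 3) (x 4) = m at *
  split_ifs with hA
  · have : ((1152 * s : ℕ) : ℝ) ≤ m := by exact_mod_cast b1 hA
    push_cast at this
    linarith
  · have h5 : A.card = 2 ∨ A.card = 3 ∨ A.card = 4 ∨ A.card = 5 := by omega
    rcases h5 with h | h | h | h
    · have : ((12 * s ^ 2 : ℕ) : ℝ) ≤ m := by exact_mod_cast b2 h
      rw [h]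
      push_cast at this ⊢
      linarith
    · have : ((6 * s ^ 2 : ℕ) : ℝ) ≤ m := by exact_mod_cast b3 h
      rw [h]
      push_cast at this ⊢
      linarith
    · have : ((4 * s ^ 2 : ℕ) : ℝ) ≤ m := by exact_mod_cast b4 h
      rw [h]
      push_cast at this ⊢
      linarith
    · have : ((3 * s ^ 2 : ℕ) : ℝ) ≤ m := by exact_mod_cast b5 h
      rw [h]
      push_cast at this ⊢
      linarith

/-- the endpoint in units of `1/48` -/
def vx (k : ℕ) (e : Bool) : ℕ := if e then gN (k + 1) else gN k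

theorem vx_le (k : Fin 8) (e : Bool) : vx k e ≤ 24 := by
  revert k e
  decide

theorem v1_eq (k : ℕ) (e : Bool) : v1 (gr k) (gr (k + 1)) e = (vx k e : ℝ) / 48 := by
  unfold v1 vx gr
  cases e <;> simp

theorem two_eq (k : ℕ) (f : ℕ → ℕ) : two k f = ∑ e : Bool, f (vx k e) := by
  unfold two
  rw [Fintype.sum_bool, fr_eq, fr_eq, add_comm]
  rfl

/-- functions on `Fin 5` as tuples -/
def eqv (α : Type) : (α × α × α × α × α) ≃ (Fin 5 → α) where
  toFun p := ![p.1, p.2.1, p.2.2.1, p.2.2.2.1, p.2.2.2.2]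
  invFun k := (k 0, k 1, k 2, k 3, k 4)
  left_inv _ := rfl
  right_inv k := by
    funext i
    fin_cases i <;> rfl

theorem sum_fin5 {α : Type} [Fintype α] (f : (Fin 5 → α) → ℕ) :
    ∑ k, f k = ∑ a, ∑ b, ∑ c, ∑ d, ∑ e, f ![a, b, c, d, e] := by
  rw [← (eqv α).sum_comp]
  simp only [Fintype.sum_prod_type]
  rfl

theorem cs_eq (R : ℕ) (k : Fin 5 → ℕ) : cs R (k 0) (k 1) (k 2) (k 3) (k 4) =
    ∑ ε : Fin 5 → Bool, max R (mv (vx (k 0) (ε 0)) (vx (k 1) (ε 1)) (vx (k 2) (ε 2))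
      (vx (k 3) (ε 3)) (vx (k 4) (ε 4))) := by
  unfold cs
  simp only [two_eq, mx_eq]
  rw [sum_fin5]
  rfl

theorem bis_spec (X P n : ℕ) : ∀ L, L * L * P ≤ X → bis X P n L * bis X P n L * P ≤ X := by
  induction n with
  | zero => intro L h; exact h
  | succ n ih =>
    intro L h
    have e : bis X P (n + 1) L = cond (Nat.ble ((L + 2 ^ n) * (L + 2 ^ n) * P) X)
      (bis X P n (L + 2 ^ n)) (bis X P n L) := rfl
    rw [e]
    cases hb : Nat.ble ((L + 2 ^ n) * (L + 2 ^ n) * P) X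
    · exact ih L h
    · exact ih _ (Nat.le_of_ble_eq_true hb)

theorem Lv_spec (N : ℕ) (hN : 0 < N) : Lv N ^ 2 * N ^ 5 ≤ 10 ^ 12 * 884736 ^ 5 := by
  unfold Lv
  have : Nat.beq N 0 = false := by
    rw [Bool.eq_false_iff]
    intro h2
    have := Nat.eq_of_beq_eq_true h2
    omega
  rw [this]
  simp only [cond_false, fr_eq]
  rw [pow_two]
  exact bis_spec _ _ _ _ (by simp)

theorem Lv_zero : Lv 0 = 0 := rfl

theorem L_le {N L : ℕ} (hN : 0 < N) (h : L ^ 2 * N ^ 5 ≤ 10 ^ 12 * 884736 ^ 5) :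
    (L : ℝ) / 10 ^ 6 ≤ ((N : ℝ) / 884736) ^ (-(5 / 2) : ℝ) := by
  have hN' : (0 : ℝ) < N := by exact_mod_cast hN
  have hc : (0 : ℝ) < (N : ℝ) / 884736 := by positivity
  have h1 : (0 : ℝ) ≤ ((N : ℝ) / 884736) ^ (-(5 / 2) : ℝ) := Real.rpow_nonneg hc.le _
  apply le_of_sq_le_sq _ h1
  have h2 : (((N : ℝ) / 884736) ^ (-(5 / 2) : ℝ)) ^ 2 = (884736 : ℝ) ^ 5 / (N : ℝ) ^ 5 := by
    rw [← Real.rpow_natCast, ← Real.rpow_mul hc.le]
    have : (-(5 / 2) : ℝ) * ((2 : ℕ) : ℝ) = -((5 : ℕ) : ℝ) := by norm_num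
    rw [this, Real.rpow_neg hc.le, Real.rpow_natCast, div_pow, inv_div]
  rw [h2, le_div_iff₀ (by positivity)]
  have h3 : ((L : ℝ)) ^ 2 * (N : ℝ) ^ 5 ≤ 10 ^ 12 * 884736 ^ 5 := by exact_mod_cast h
  rw [div_pow, div_mul_eq_mul_div, div_le_iff₀ (by positivity)]
  linarith

/-- the unit -/
noncomputable def δ : ENNReal := ENNReal.ofReal (1 / (48 ^ 5 * 10 ^ 6))

theorem I_ge (R : ℕ) (k : Fin 5 → Fin 8) :
    (((wd (k 0) * wd (k 1) * wd (k 2) * wd (k 3) * wd (k 4)) *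
      LL R (k 0) (k 1) (k 2) (k 3) (k 4) : ℕ) : ENNReal) * δ ≤ I ((R : ℝ) / 27648) k := by
  unfold LL
  rw [fr_eq]
  set N := cs R (k 0) (k 1) (k 2) (k 3) (k 4) -
    128 * (qd (k 0) + qd (k 1) + qd (k 2) + qd (k 3) + qd (k 4)) with hNdef
  rcases Nat.eq_zero_or_pos N with hN | hN
  · rw [hN, Lv_zero]
    simp
  · have hL := L_le hN (Lv_spec N hN)
    set L := Lv N
    have hN' : (0 : ℝ) < N := by exact_mod_cast hN
    have hcell := cell (a := fun i => gr (k i)) (b := fun i => gr ((k i : ℕ) + 1))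
      (fun i => gr_lt (k i)) ((R : ℝ) / 27648)
      (fun ε => ((max R (mv (vx (k 0) (ε 0)) (vx (k 1) (ε 1)) (vx (k 2) (ε 2))
      (vx (k 3) (ε 3)) (vx (k 4) (ε 4))) : ℕ) : ℝ) / 27648) (by
        intro ε
        have hM := M_le (fun i => vx (k i) (ε i)) (fun i => vx_le _ _)
        simp only [v1_eq]
        rw [Nat.cast_max]
        apply max_le
        · apply div_le_div_of_nonneg_right (le_max_left _ _) (by norm_num)
        · exact hM.trans (div_le_div_of_nonneg_right (le_max_right _ _) (by norm_num)))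
      ((N : ℝ) / 884736) (by positivity) (by
        rw [← Finset.sum_div, ← Nat.cast_sum, ← cs_eq R (fun i => (k i : ℕ))]
        rw [Fin.sum_univ_five]
        have h1 : (cs R (k 0) (k 1) (k 2) (k 3) (k 4) : ℝ) ≤ (N : ℝ) +
          128 * (qd (k 0) + qd (k 1) + qd (k 2) + qd (k 3) + qd (k 4)) := by
          have : cs R (k 0) (k 1) (k 2) (k 3) (k 4) ≤ N +
            128 * (qd (k 0) + qd (k 1) + qd (k 2) + qd (k 3) + qd (k 4)) := by omega
          exact_mod_cast this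
        unfold qd at h1
        push_cast at h1
        unfold gr
        linarith)
    unfold I cl
    refine le_trans ?_ hcell
    unfold δ
    rw [← ENNReal.ofReal_natCast, ← ENNReal.ofReal_mul (by positivity)]
    apply ENNReal.ofReal_le_ofReal
    have hw : ∀ i, gr ((k i : ℕ) + 1) - gr (k i) = (wd (k i) : ℝ) / 48 := by
      intro i
      unfold gr wd
      have := (gN_lt (k i)).le
      rw [Nat.cast_sub this]
      ring
    simp only [hw]
    rw [Fin.prod_univ_five]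
    push_cast
    have hpos : (0 : ℝ) ≤ (wd (k 0) : ℝ) / 48 * ((wd (k 1) : ℝ) / 48) * ((wd (k 2) : ℝ) / 48) *
      ((wd (k 3) : ℝ) / 48) * ((wd (k 4) : ℝ) / 48) := by positivity
    calc (wd (k 0) : ℝ) * wd (k 1) * wd (k 2) * wd (k 3) * wd (k 4) * L * (1 / (48 ^ 5 * 10 ^ 6))
        = (wd (k 0) : ℝ) / 48 * ((wd (k 1) : ℝ) / 48) * ((wd (k 2) : ℝ) / 48) *
      ((wd (k 3) : ℝ) / 48) * ((wd (k 4) : ℝ) / 48) * ((L : ℝ) / 10 ^ 6) := by ring
      _ ≤ _ := mul_le_mul_of_nonneg_left hL hpos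

/-- the summand -/
def tk (R1 R2 : ℕ) (k : Fin 5 → Fin 8) : ℕ :=
  cond (Nat.ble (k 0) (k 1)) (cond (Nat.ble (k 1) (k 2)) (cond (Nat.ble (k 2) (k 3))
    (cond (Nat.ble (k 3) (k 4)) (tm R1 R2 (k 0) (k 1) (k 2) (k 3) (k 4)) 0) 0) 0) 0

theorem cond_sum (p : Bool) (f : Fin 8 → ℕ) : cond p (∑ a, f a) 0 = ∑ a, cond p (f a) 0 := by
  cases p <;> simp

theorem s8_eq (f : ℕ → ℕ) : s8 f = ∑ a : Fin 8, f a := by
  rw [Fin.sum_univ_eight]
  rfl

theorem sum_tk (R1 R2 : ℕ) : ∑ k, tk R1 R2 k = s8 (TT R1 R2) := by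
  rw [sum_fin5, s8_eq]
  unfold TT
  simp only [s8_eq, cond_sum]
  rfl

theorem tk_not (R1 R2 : ℕ) (k : Fin 5 → Fin 8) (h : ¬ Monotone k) : tk R1 R2 k = 0 := by
  unfold tk
  cases h1 : Nat.ble (k 0) (k 1)
  · rfl
  cases h2 : Nat.ble (k 1) (k 2)
  · rfl
  cases h3 : Nat.ble (k 2) (k 3)
  · rfl
  cases h4 : Nat.ble (k 3) (k 4)
  · rfl
  exfalso
  apply h
  rw [Fin.monotone_iff_le_succ]
  have g1 := Nat.le_of_ble_eq_true h1
  have g2 := Nat.le_of_ble_eq_true h2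
  have g3 := Nat.le_of_ble_eq_true h3
  have g4 := Nat.le_of_ble_eq_true h4
  intro i
  fin_cases i
  · exact g1
  · exact g2
  · exact g3
  · exact g4

theorem tk_le (R1 R2 : ℕ) (k : Fin 5 → Fin 8) :
    ((tk R1 R2 k : ℕ) : ENNReal) * δ ≤
      (mlt k : ENNReal) * (I ((R1 : ℝ) / 27648) k + I ((R2 : ℝ) / 27648) k) := by
  have h1 : tk R1 R2 k ≤ tm R1 R2 (k 0) (k 1) (k 2) (k 3) (k 4) := by
    unfold tk
    cases Nat.ble (k 0) (k 1) <;> cases Nat.ble (k 1) (k 2) <;> cases Nat.ble (k 2) (k 3) <;>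
      cases Nat.ble (k 3) (k 4) <;> simp
  have h2 : ((tk R1 R2 k : ℕ) : ENNReal) ≤ (tm R1 R2 (k 0) (k 1) (k 2) (k 3) (k 4) : ℕ) := by
    exact_mod_cast h1
  refine (mul_le_mul_left h2 δ).trans ?_
  have h3 : tm R1 R2 (k 0) (k 1) (k 2) (k 3) (k 4) = mlt k *
    ((wd (k 0) * wd (k 1) * wd (k 2) * wd (k 3) * wd (k 4)) *
      LL R1 (k 0) (k 1) (k 2) (k 3) (k 4) +
     (wd (k 0) * wd (k 1) * wd (k 2) * wd (k 3) * wd (k 4)) *
      LL R2 (k 0) (k 1) (k 2) (k 3) (k 4)) := by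
    unfold tm mlt
    ring
  rw [h3, Nat.cast_mul, mul_assoc]
  gcongr
  rw [Nat.cast_add, add_mul]
  exact add_le_add (I_ge R1 k) (I_ge R2 k)

theorem K_ge (R1 R2 : ℕ) : ((s8 (TT R1 R2) : ℕ) : ENNReal) * δ ≤
    K ((R1 : ℝ) / 27648) + K ((R2 : ℝ) / 27648) := by
  rw [← sum_tk, Nat.cast_sum, Finset.sum_mul]
  refine (sum_ge (fun k => I ((R1 : ℝ) / 27648) k + I ((R2 : ℝ) / 27648) k) (fun k σ => by
    simp only [I_perm]) _ (tk_le R1 R2) (fun k hk => by rw [tk_not R1 R2 k hk]; simp)).trans ?_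
  rw [Finset.sum_add_distrib]
  exact add_le_add (sum_I_le _) (sum_I_le _)

theorem final (T : ℕ) (h : Nat.ble (90437 * 48 ^ 5 * 10 ^ 6) (16 * 10 ^ 4 * T) = true) :
    ENNReal.ofReal (7 * Real.pi ^ 3 / 24) < 16 * ((T : ENNReal) * δ) := by
  have h1 : ((90437 * 48 ^ 5 * 10 ^ 6 : ℕ) : ℝ) ≤ ((16 * 10 ^ 4 * T : ℕ) : ℝ) := by
    exact_mod_cast Nat.le_of_ble_eq_true h
  push_cast at h1
  have h2 : (16 : ENNReal) * ((T : ENNReal) * δ) =
      ENNReal.ofReal (16 * ((T : ℝ) * (1 / (48 ^ 5 * 10 ^ 6)))) := by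
    rw [ENNReal.ofReal_mul (by norm_num), ENNReal.ofReal_mul (by positivity),
      ENNReal.ofReal_natCast]
    congr 1
    simp
  rw [h2]
  apply (ENNReal.ofReal_lt_ofReal_iff_of_nonneg (by positivity)).mpr
  have hpi := Real.pi_lt_d4
  have hpi0 := Real.pi_pos
  have h3 : Real.pi ^ 3 < 3.1416 ^ 3 := by
    exact pow_lt_pow_left₀ hpi hpi0.le (by norm_num)
  have h4 : (9.0437 : ℝ) ≤ 16 * ((T : ℝ) * (1 / (48 ^ 5 * 10 ^ 6))) := by
    have e : 16 * ((T : ℝ) * (1 / (48 ^ 5 * 10 ^ 6))) = (16 * 10 ^ 4 * T) / (48 ^ 5 * 10 ^ 10) := by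
      ring
    rw [e, le_div_iff₀ (by positivity)]
    norm_num at h1 ⊢
    linarith
  refine lt_of_lt_of_le ?_ h4
  norm_num at h3
  linarith

theorem main : Pool.Agent.W438.RA.S_num := by
  unfold S_num Kmin
  have h1 := K_ge 27648 3456
  have h2 := K_ge 24192 13824
  have e1 : ((27648 : ℕ) : ℝ) / 27648 = 1 := by norm_num
  have e2 : ((3456 : ℕ) : ℝ) / 27648 = 1 / 8 := by norm_num
  have e3 : ((24192 : ℕ) : ℝ) / 27648 = 7 / 8 := by norm_num
  have e4 : ((13824 : ℕ) : ℝ) / 27648 = 1 / 2 := by norm_num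
  rw [e1, e2] at h1
  rw [e3, e4] at h2
  have f1 := final _ check1
  have f2 := final _ check2
  rcases min_cases (K 1 + K (1 / 8)) (K (7 / 8) + K (1 / 2)) with ⟨h, _⟩ | ⟨h, _⟩
  · rw [h]
    refine lt_of_lt_of_le f1 ?_
    gcongr
  · rw [h]
    refine lt_of_lt_of_le f2 ?_
    gcongr

end Pool.Agent.W932.RA.Num
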